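import Pool.Agent.Run7.h491.Copies
import Pool.Agent.Run7.h491.L2

/-!
MP_eef3c4_an, Q1 (Kalton), answered in both readings.

* Read literally (SOME copy of `X` in `C[0,1]` is allowed) the answer is yes, with constant one:
  first part of `result`.
* Read as the property of `X` which Kalton had in mind (EVERY copy of `X` in `C[0,1]` should have
  the extension property) the answer is no: second part of `result`.

Second part.  `X` is isomorphic to a uniformly convex space.  Mazur's method gives a basic sequence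
`x n` in `X` with bounded biorthogonal functionals `f n` that tend to zero weak-star.  Uniform
convexity gives `∑ |x* (x n)| ^ q ≤ M` for all `x*` in the dual ball (the Gurarii argument) and
`‖u ± f n‖ ≤ max ‖u‖ R + η` for late `n` (asymptotic smoothness of the dual norm).  Index the `x n`
by the nodes of the tree of finite sequences.  Let `L` be the compact set of the pairs `(x*, ζ)`
for which `ζ` predicts, at every node, the value of `x*` at the next node, with total error `≤ C`
along every branch.  Every `x*` has such a predictor (follow the heavy child), so `X` embeds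
isometrically into `C(L)`.  An operator `S : C(L) → C(ball of X*)` which extends the canonical
embedding of `X` would give predictors that depend weak-star continuously on `x*`; walking down the
tree and always choosing the sign which is predicted worst makes the total error unbounded.
-/

set_option autoImplicit false

noncomputable section

open TopologicalSpace

namespace Pool.Agent.Results.MP_eef3c4_an.BothReadings

universe u v w

/-- superreflexive: isomorphic to a uniformly convex Banach space -/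
def Superreflexive (X : Type u) [NormedAddCommGroup X] [NormedSpace ℝ X] : Prop :=
  ∃ (Z : Type u) (_ : NormedAddCommGroup Z) (_ : NormedSpace ℝ Z),
    CompleteSpace Z ∧ UniformConvexSpace Z ∧ Nonempty (X ≃L[ℝ] Z)

/-- the pair `(E, Y)` has the `lam`-`C(K)`-extension property, for compact `K` in `Type v` -/
def HasExtensionPropertyWith {Y : Type w} [NormedAddCommGroup Y] [NormedSpace ℝ Y]
    (E : Submodule ℝ Y) (lam : ℝ) : Prop :=
  ∀ (K : Type v) [TopologicalSpace K] [CompactSpace K] [T2Space K] (T : E →L[ℝ] C(K, ℝ)),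
    ∃ T' : Y →L[ℝ] C(K, ℝ), (∀ e : E, T' e = T e) ∧ ‖T'‖ ≤ lam * ‖T‖

/-- the pair `(E, Y)` has the `C(K)`-extension property, for compact `K` in `Type v` -/
def HasExtensionProperty {Y : Type w} [NormedAddCommGroup Y] [NormedSpace ℝ Y]
    (E : Submodule ℝ Y) : Prop :=
  ∃ lam : ℝ, 1 ≤ lam ∧ HasExtensionPropertyWith.{v} E lam

theorem good (X : Type u) [NormedAddCommGroup X] [NormedSpace ℝ X] [CompleteSpace X]
    [SeparableSpace X] :
    ∃ E : Submodule ℝ C(unitInterval, ℝ), IsClosed (E : Set C(unitInterval, ℝ)) ∧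
      Nonempty (X ≃ₗᵢ[ℝ] E) ∧ HasExtensionPropertyWith.{v} E 1 := by
  obtain ⟨J, r, hr, hJ⟩ := Run7.h491.exists_good X
  refine ⟨LinearMap.range J.toLinearMap, ?_, ⟨J.equivRange⟩, ?_⟩
  · exact J.isometry.isClosedEmbedding.isClosed_range
  · intro K _ _ _ T
    obtain ⟨T', h1, h2⟩ := Run7.h491.ext_of_good X J r hr hJ K T
    exact ⟨T', h1, by rw [one_mul]; exact h2⟩

theorem bad (X : Type u) [NormedAddCommGroup X] [NormedSpace ℝ X] [CompleteSpace X]
    [SeparableSpace X] (hX : ¬ FiniteDimensional ℝ X) (hs : Superreflexive X) :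
    ∃ E : Submodule ℝ C(unitInterval, ℝ), IsClosed (E : Set C(unitInterval, ℝ)) ∧
      Nonempty (X ≃ₗᵢ[ℝ] E) ∧ ∃ T : E →L[ℝ] C(unitInterval, ℝ),
        ¬ ∃ T' : C(unitInterval, ℝ) →L[ℝ] C(unitInterval, ℝ), ∀ e : E, T' e = T e := by
  obtain ⟨Z, _, _, _, _, ⟨e⟩⟩ := hs
  obtain ⟨J, r, _, hJ⟩ := Run7.h491.exists_good X
  obtain ⟨J₂, hJ₂⟩ := Run7.h491.exists_bad' X hX Z e J r hJ
  refine ⟨LinearMap.range J₂.toLinearMap, J₂.isometry.isClosedEmbedding.isClosed_range,
    ⟨J₂.equivRange⟩, ?_⟩
  refine ⟨J.toContinuousLinearMap.comp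
    (J₂.equivRange.symm.toContinuousLinearEquiv :
      LinearMap.range J₂.toLinearMap →L[ℝ] X), ?_⟩
  rintro ⟨T', hT'⟩
  refine hJ₂ T' fun y => ?_
  have h1 := hT' ⟨J₂ y, ⟨y, rfl⟩⟩
  have h2 : J₂.equivRange.symm ⟨J₂ y, ⟨y, rfl⟩⟩ = y := by
    rw [LinearIsometryEquiv.symm_apply_eq]
    rfl
  refine h1.trans ?_
  show J (J₂.equivRange.symm ⟨J₂ y, ⟨y, rfl⟩⟩) = J y
  rw [h2]

theorem not_property (E : Submodule ℝ C(unitInterval, ℝ))
    (h : ∃ T : E →L[ℝ] C(unitInterval, ℝ),
      ¬ ∃ T' : C(unitInterval, ℝ) →L[ℝ] C(unitInterval, ℝ), ∀ e : E, T' e = T e) :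
    ¬ HasExtensionProperty.{0} E := by
  obtain ⟨T, hT⟩ := h
  rintro ⟨lam, _, h⟩
  obtain ⟨T', h1, _⟩ := h unitInterval T
  exact hT ⟨T', h1⟩

theorem result :
    (∃ E : Submodule ℝ C(unitInterval, ℝ), IsClosed (E : Set C(unitInterval, ℝ)) ∧
      SeparableSpace E ∧ ¬ FiniteDimensional ℝ E ∧ Superreflexive E ∧
      HasExtensionPropertyWith.{v} E 1) ∧
    ∀ (X : Type u) [NormedAddCommGroup X] [NormedSpace ℝ X] [CompleteSpace X] [SeparableSpace X],
      ¬ FiniteDimensional ℝ X → Superreflexive X →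
      (∃ E : Submodule ℝ C(unitInterval, ℝ), IsClosed (E : Set C(unitInterval, ℝ)) ∧
        Nonempty (X ≃ₗᵢ[ℝ] E) ∧ HasExtensionPropertyWith.{v} E 1) ∧
      (∃ E : Submodule ℝ C(unitInterval, ℝ), IsClosed (E : Set C(unitInterval, ℝ)) ∧
        Nonempty (X ≃ₗᵢ[ℝ] E) ∧ ¬ HasExtensionProperty.{0} E ∧
        ∃ T : E →L[ℝ] C(unitInterval, ℝ),
          ¬ ∃ T' : C(unitInterval, ℝ) →L[ℝ] C(unitInterval, ℝ), ∀ e : E, T' e = T e) := by
  refine ⟨?_, fun X _ _ _ _ hX hs => ⟨good X, ?_⟩⟩
  · have := Run7.h491.L2_sep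
    obtain ⟨E, h1, ⟨e⟩, h3⟩ := good.{0, v} Run7.h491.L2
    refine ⟨E, h1, ?_, ?_, ?_, h3⟩
    · exact e.surjective.denseRange.separableSpace e.continuous
    · intro hfin
      exact Run7.h491.L2_inf (Module.Finite.equiv e.symm.toLinearEquiv)
    · exact ⟨Run7.h491.L2, inferInstance, inferInstance, inferInstance, inferInstance,
        ⟨e.symm.toContinuousLinearEquiv⟩⟩
  · obtain ⟨E, h1, h2, h3⟩ := bad X hX hs
    exact ⟨E, h1, h2, not_property E h3, h3⟩

end Pool.Agent.Results.MP_eef3c4_an.BothReadings
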